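import Pool.Agent.Lib_helper35.SFR.Ext
import Pool.Agent.Lib_helper22.SFR.Dual

/-!
# Extension of Cartier maps and of dual basis identities to `AdicCompletion (maximalIdeal R) R`
-/

set_option autoImplicit false

namespace H35.SFR

open IsLocalRing

variable {R : Type*} [CommRing R] [IsLocalRing R] [IsNoetherianRing R]

theorem mem_pow_iff (n : ℕ) (x : AdicCompletion (maximalIdeal R) R) :
    x ∈ maximalIdeal (AdicCompletion (maximalIdeal R) R) ^ n ↔
      AdicCompletion.evalₐ (maximalIdeal R) n x = 0 := by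
  have hfg : (maximalIdeal R).FG := IsNoetherian.noetherian _
  have h1 := AdicCompletion.pow_smul_top_eq_ker_eval (M := R) (n := n) hfg
  have h2 : x ∈ maximalIdeal (AdicCompletion (maximalIdeal R) R) ^ n ↔
      x ∈ ((maximalIdeal R ^ n • ⊤ : Submodule R (AdicCompletion (maximalIdeal R) R))) := by
    rw [AdicCompletion.maximalIdeal_eq_map, ← Ideal.map_pow, Ideal.smul_top_eq_map,
      Submodule.restrictScalars_mem]
  rw [h2, h1, LinearMap.mem_ker]
  constructor
  · intro h
    rw [← AdicCompletion.factor_eval_eq_evalₐ (h := by simp), h, map_zero]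
  · intro h
    rw [← AdicCompletion.factor_evalₐ_eq_eval (h := by simp), h, map_zero]

theorem isCompl_adicCompletion :
    IsCompl (algebraMap R (AdicCompletion (maximalIdeal R) R)) where
  complete := inferInstance
  dense n x := by
    obtain ⟨r, hr⟩ := Ideal.Quotient.mk_surjective (AdicCompletion.evalₐ (maximalIdeal R) n x)
    refine ⟨r, ?_⟩
    rw [mem_pow_iff, map_sub, AlgHom.commutes, ← hr, sub_eq_zero]
    rfl
  comap n r h := by
    rw [mem_pow_iff, AlgHom.commutes] at h
    exact Ideal.Quotient.eq_zero_iff_mem.1 h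
  map n r h := by
    rw [mem_pow_iff, AlgHom.commutes]
    exact Ideal.Quotient.eq_zero_iff_mem.2 h

/-- (a) Cartier maps extend to the completion -/
theorem exists_ext_adicCompletion {q : ℕ} {φ : R →+ R} (hφ : Pool.Agent.SFR.IsCartier q φ) :
    ∃ ψ : AdicCompletion (maximalIdeal R) R →+ AdicCompletion (maximalIdeal R) R,
      Pool.Agent.SFR.IsCartier q ψ ∧
      ∀ r, ψ (algebraMap R _ r) = algebraMap R _ (φ r) := by
  obtain ⟨ψ, h1, h2, _⟩ := isCompl_adicCompletion.extend (R := R) hφ
  exact ⟨ψ, h1, h2⟩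

/-- (a') with the modulus of continuity -/
theorem exists_ext_adicCompletion' {q : ℕ} {φ : R →+ R} (hφ : Pool.Agent.SFR.IsCartier q φ) :
    ∃ ψ : AdicCompletion (maximalIdeal R) R →+ AdicCompletion (maximalIdeal R) R,
      Pool.Agent.SFR.IsCartier q ψ ∧
      (∀ r, ψ (algebraMap R _ r) = algebraMap R _ (φ r)) ∧
      ∀ n, ∃ N, ∀ (x : AdicCompletion (maximalIdeal R) R) (r : R),
        x - algebraMap R _ r ∈ maximalIdeal (AdicCompletion (maximalIdeal R) R) ^ N →
        ψ x - algebraMap R _ (φ r) ∈ maximalIdeal (AdicCompletion (maximalIdeal R) R) ^ n :=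
  isCompl_adicCompletion.extend (R := R) hφ

/-- (b) dual basis identities of Frobenius extend to complete rings -/
theorem IsCompl.frobDual {S : Type*} [CommRing S] [IsLocalRing S] {ι : R →+* S} (h : IsCompl ι)
    {p : ℕ} {c : R} (hc : Pool.Agent.SFR.FrobDual p c) : Pool.Agent.SFR.FrobDual p (ι c) := by
  obtain ⟨n, b, π, hπ, hid⟩ := hc
  have := h.complete
  choose ψ hψ hψ' hmod using fun i => h.extend (hπ i)
  refine ⟨n, fun i => ι (b i), ψ, hψ, fun x => ?_⟩
  apply haus_eq (maximalIdeal S)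
  intro k
  choose N hN using fun i => hmod i k
  set K := k + ∑ i, N i with hK
  obtain ⟨r, hr⟩ := h.dense K x
  have h1 : ∀ i, ψ i x - ι (π i r) ∈ maximalIdeal S ^ k := by
    intro i
    apply hN
    refine Ideal.pow_le_pow_right ?_ hr
    have := Finset.single_le_sum (f := N) (fun _ _ => Nat.zero_le _) (Finset.mem_univ i)
    omega
  have h2 : x - ι r ∈ maximalIdeal S ^ k := Ideal.pow_le_pow_right (by omega) hr
  have e : ι c * x - ∑ i, ψ i x ^ p * ι (b i) =
      ι c * (x - ι r) - ∑ i, (ψ i x ^ p - ι (π i r) ^ p) * ι (b i) := by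
    have h3 := congrArg ι (hid r)
    rw [map_mul, map_sum] at h3
    simp only [map_mul, map_pow] at h3
    rw [mul_sub, h3]
    simp only [sub_mul, Finset.sum_sub_distrib]
    ring
  rw [e]
  refine sub_mem (Ideal.mul_mem_left _ _ h2) (Submodule.sum_mem _ fun i _ => ?_)
  obtain ⟨z, hz⟩ := sub_dvd_pow_sub_pow (ψ i x) (ι (π i r)) p
  rw [hz]
  exact Ideal.mul_mem_right _ _ (Ideal.mul_mem_right _ _ (h1 i))

theorem frobDual_adicCompletion {p : ℕ} {c : R} (hc : Pool.Agent.SFR.FrobDual p c) :
    Pool.Agent.SFR.FrobDual p (algebraMap R (AdicCompletion (maximalIdeal R) R) c) :=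
  isCompl_adicCompletion.frobDual hc

omit [IsNoetherianRing R] in
/-- (c) strongly F-regular local domains are normal -/
theorem isIntegrallyClosed_of_isSFR [IsDomain R] {p : ℕ} (h : Pool.Agent.SFR.IsSFR p R) :
    IsIntegrallyClosed R := by
  have h1 : testP p R = ⊥ := by
    rw [eq_bot_iff]
    intro c hc
    rw [Ideal.mem_bot]
    by_contra hc0
    obtain ⟨e, φ, hφ, h1⟩ := h c hc0
    exact notMem_of_unit hφ (by rw [h1]; exact isUnit_one) hc
  exact isIntegrallyClosed_of_testP_eq_bot h1

/-- **SFR2**: strong F-regularity passes to the completion, which is a normal domain. -/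
theorem sfr_adicCompletion [IsDomain R] {p : ℕ} [hp : Fact p.Prime] [CharP R p] (h : Pool.Agent.SFR.IsSFR p R)
    (hF : Pool.Agent.SFR.IsFPureRing p R) {c : R} (hc0 : c ≠ 0)
    (hc : Pool.Agent.SFR.FrobDual p c) :
    ∃ _ : IsDomain (AdicCompletion (maximalIdeal R) R),
      Pool.Agent.SFR.IsSFR p (AdicCompletion (maximalIdeal R) R) ∧
      IsIntegrallyClosed (AdicCompletion (maximalIdeal R) R) := by
  have hF' : Pool.Agent.SFR.IsFPureRing p (AdicCompletion (maximalIdeal R) R) := by
    obtain ⟨e, φ, he, hφ, h1⟩ := hF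
    obtain ⟨ψ, h2, h3⟩ := exists_ext_adicCompletion hφ
    exact ⟨e, ψ, he, h2, by rw [← map_one (algebraMap R _), h3, h1]⟩
  have : IsNoetherianRing (AdicCompletion (maximalIdeal R) R) :=
    Pool.Agent.CN.isNoetherianRing_adicCompletion R p
  obtain ⟨h4, h5⟩ := Pool.Agent.SFR.isSFR_of_frobDual hp.out.two_le hF' (frobDual_adicCompletion hc) (by
    intro I hI hne hcI
    obtain ⟨e, φ, hφ, h1⟩ := h c hc0
    obtain ⟨ψ, h2, h3⟩ := exists_ext_adicCompletion hφ
    apply hne
    rw [Ideal.eq_top_iff_one]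
    have := hI e ψ h2 _ hcI
    rwa [h3, h1, map_one] at this)
  exact ⟨h4, h5, isIntegrallyClosed_of_isSFR h5⟩

end H35.SFR
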