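import Mathlib

/-!
# Cartier maps, the test prime of a local ring and the dual basis identity
-/

set_option autoImplicit false

namespace H35.SFR

open IsLocalRing

variable {R : Type*} [CommRing R]

/-- `q`-Cartier (i.e. `q⁻¹`-linear) maps: `φ (r^q z) = r φ z`. -/
def IsCartier (q : ℕ) (φ : R →+ R) : Prop := ∀ r z, φ (r ^ q * z) = r * φ z

theorem IsCartier.comp {q q' : ℕ} {φ ψ : R →+ R} (h : IsCartier q φ) (h' : IsCartier q' ψ) :
    IsCartier (q' * q) (ψ.comp φ) := by
  intro r z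
  rw [AddMonoidHom.comp_apply, AddMonoidHom.comp_apply, pow_mul, h, h']

/-- premultiplication -/
def premul (φ : R →+ R) (c : R) : R →+ R := φ.comp (AddMonoidHom.mulLeft c)

@[simp] theorem premul_apply (φ : R →+ R) (c z : R) : premul φ c z = φ (c * z) := rfl

theorem IsCartier.premul {q : ℕ} {φ : R →+ R} (h : IsCartier q φ) (c : R) :
    IsCartier q (premul φ c) := by
  intro r z
  rw [premul_apply, premul_apply, ← h]
  congr 1; ring

/-- postmultiplication -/
theorem IsCartier.postmul {q : ℕ} {φ : R →+ R} (h : IsCartier q φ) (c : R) :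
    IsCartier q ((AddMonoidHom.mulLeft c).comp φ) := by
  intro r z
  simp only [AddMonoidHom.comp_apply, AddMonoidHom.coe_mulLeft]
  rw [h]; ring

/-- an ideal is compatible with all Cartier maps of exponents `p^e` -/
def Compat (p : ℕ) (I : Ideal R) : Prop :=
  ∀ (e : ℕ) (φ : R →+ R), IsCartier (p ^ e) φ → ∀ x ∈ I, φ x ∈ I

/-- annihilators are compatible -/
theorem compat_ann (p : ℕ) (hp : 0 < p) (x : R) : Compat p (Ideal.span {x}).annihilator := by
  intro e φ hφ y hy
  rw [Submodule.mem_annihilator_span_singleton, smul_eq_mul] at hy ⊢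
  have h0 : 0 < p ^ e := Nat.pow_pos hp
  rw [mul_comm, ← hφ]
  obtain ⟨k, hk⟩ : ∃ k, p ^ e = k + 1 := ⟨p ^ e - 1, by omega⟩
  rw [hk, pow_succ, mul_assoc, mul_comm x y, hy, mul_zero, map_zero]

variable [IsLocalRing R]

/-- the test prime `{c | φ c ∈ m for all Cartier maps φ}` -/
def testP (p : ℕ) (R : Type*) [CommRing R] [IsLocalRing R] : Ideal R where
  carrier := {c | ∀ (e : ℕ) (φ : R →+ R), IsCartier (p ^ e) φ → φ c ∈ maximalIdeal R}
  add_mem' := by
    intro a b ha hb e φ hφ
    rw [map_add]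
    exact add_mem (ha e φ hφ) (hb e φ hφ)
  zero_mem' := by
    intro e φ _
    rw [map_zero]; exact zero_mem _
  smul_mem' := by
    intro c x hx e φ hφ
    exact hx e _ (hφ.premul c)

theorem mem_testP {p : ℕ} {c : R} : c ∈ testP p R ↔
    ∀ (e : ℕ) (φ : R →+ R), IsCartier (p ^ e) φ → φ c ∈ maximalIdeal R := Iff.rfl

theorem exists_unit_of_notMem {p : ℕ} {c : R} (h : c ∉ testP p R) :
    ∃ (e : ℕ) (φ : R →+ R), IsCartier (p ^ e) φ ∧ IsUnit (φ c) := by
  rw [mem_testP] at h
  push Not at h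
  obtain ⟨e, φ, hφ, h⟩ := h
  refine ⟨e, φ, hφ, ?_⟩
  by_contra hc
  exact h ((mem_maximalIdeal _).2 hc)

theorem notMem_of_unit {p : ℕ} {c : R} {e : ℕ} {φ : R →+ R} (hφ : IsCartier (p ^ e) φ)
    (h : IsUnit (φ c)) : c ∉ testP p R := fun hc =>
  (mem_maximalIdeal _).1 (hc e φ hφ) h

theorem compat_testP (p : ℕ) : Compat p (testP p R) := by
  intro e φ hφ x hx e' ψ hψ
  have := hx (e' + e) (ψ.comp φ) (by rw [pow_add]; exact hφ.comp hψ)
  exact this

/-- the test prime is the largest proper compatible ideal -/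
theorem le_testP {p : ℕ} {I : Ideal R} (hI : I ≠ ⊤) (hc : Compat p I) : I ≤ testP p R := by
  intro x hx e φ hφ
  exact le_maximalIdeal hI (hc e φ hφ x hx)

theorem testP_isPrime {p : ℕ} (hp : 0 < p) (h1 : (1 : R) ∉ testP p R) : (testP p R).IsPrime := by
  rw [Ideal.isPrime_iff]
  refine ⟨fun hc => h1 (hc ▸ Submodule.mem_top), fun {a b} hab => ?_⟩
  by_contra hcon
  push Not at hcon
  obtain ⟨ha, hb⟩ := hcon
  obtain ⟨e, φ, hφ, hu⟩ := exists_unit_of_notMem ha
  obtain ⟨e', ψ, hψ, hv⟩ := exists_unit_of_notMem hb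
  obtain ⟨u, hu⟩ := hu
  -- `χ z = ψ (u⁻¹ φ (b^(q-1) z))`
  have h0 : 0 < p ^ e := Nat.pow_pos hp
  have hχ : IsCartier (p ^ e' * p ^ e)
      (ψ.comp ((AddMonoidHom.mulLeft (↑u⁻¹ : R)).comp (premul φ (b ^ (p ^ e - 1))))) :=
    ((hφ.premul _).postmul _).comp hψ
  rw [← pow_add] at hχ
  have h2 := hab _ _ hχ
  simp only [AddMonoidHom.comp_apply, premul_apply, AddMonoidHom.coe_mulLeft] at h2
  have h3 : b ^ (p ^ e - 1) * (a * b) = b ^ (p ^ e) * a := by
    obtain ⟨k, hk⟩ : ∃ k, p ^ e = k + 1 := ⟨p ^ e - 1, by omega⟩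
    rw [hk]
    simp only [Nat.add_sub_cancel]
    ring
  rw [h3, hφ, ← hu, mul_comm b, ← mul_assoc, Units.inv_mul, one_mul] at h2
  exact (mem_maximalIdeal _).1 h2 hv

/-- the dual basis identity `c^q r = ∑ π_i(r)^q b_i` -/
def DB {R : Type*} [CommRing R] (q : ℕ) (c : R) : Prop :=
  ∃ (n : ℕ) (b : Fin n → R) (π : Fin n → R →+ R), (∀ i, IsCartier q (π i)) ∧
    ∀ r, c ^ q * r = ∑ i, π i r ^ q * b i

omit [IsLocalRing R] in
/-- a compatible prime not containing `c` is locally zero -/
theorem DB.exists_ann {p : ℕ} (hp : 2 ≤ p) [IsNoetherianRing R] {c : R} (h : DB p c)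
    {Q : Ideal R} [hQ : Q.IsPrime] (hcQ : c ∉ Q) (hcomp : Compat p Q) {x : R} (hx : x ∈ Q) :
    ∃ s, s ∉ Q ∧ s * x = 0 := by
  obtain ⟨n, b, π, hπ, hid⟩ := h
  set S := Localization.AtPrime Q
  have hle : Q.map (algebraMap R S) ≤ maximalIdeal S • Q.map (algebraMap R S) := by
    rw [Ideal.map_le_iff_le_comap]
    intro y hy
    rw [Ideal.mem_comap]
    have h1 : algebraMap R S (c ^ p * y) ∈ maximalIdeal S • Q.map (algebraMap R S) := by
      rw [hid, map_sum]
      refine Submodule.sum_mem _ fun i _ => ?_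
      have h2 : π i y ∈ Q := hcomp 1 (π i) (by rw [pow_one]; exact hπ i) y hy
      obtain ⟨k, rfl⟩ : ∃ k, p = k + 2 := ⟨p - 2, by omega⟩
      have h3 : algebraMap R S (π i y ^ (k + 2) * b i) =
          algebraMap R S (π i y) • (algebraMap R S (π i y) *
            algebraMap R S (π i y ^ k * b i)) := by
        simp only [map_mul, map_pow, smul_eq_mul]; ring
      rw [h3]
      refine Submodule.smul_mem_smul ?_ ?_
      · rw [← Localization.AtPrime.map_eq_maximalIdeal]
        exact Ideal.mem_map_of_mem _ h2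
      · exact Ideal.mul_mem_right _ _ (Ideal.mem_map_of_mem _ h2)
    rw [map_mul] at h1
    have hu : IsUnit (algebraMap R S (c ^ p)) := by
      apply IsLocalization.map_units S (⟨c ^ p, ?_⟩ : Q.primeCompl)
      exact fun hc => hcQ (hQ.mem_of_pow_mem _ hc)
    obtain ⟨u, hu⟩ := hu
    rw [← hu] at h1
    have h4 := Submodule.smul_mem _ (↑u⁻¹ : S) h1
    have h5 : (↑u⁻¹ : S) • ((u : S) * algebraMap R S y) = algebraMap R S y := by
      rw [smul_eq_mul, ← mul_assoc, Units.inv_mul, one_mul]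
    rwa [h5] at h4
  have hbot : Q.map (algebraMap R S) = ⊥ :=
    Submodule.eq_bot_of_le_smul_of_le_jacobson_bot _ _ (IsNoetherian.noetherian _) hle
      (maximalIdeal_le_jacobson _)
  have h5 : algebraMap R S x = 0 := by
    have := Ideal.mem_map_of_mem (algebraMap R S) hx
    rwa [hbot, Ideal.mem_bot] at this
  obtain ⟨s, hs⟩ := (IsLocalization.map_eq_zero_iff Q.primeCompl S x).1 h5
  exact ⟨s, s.2, hs⟩

/-- **Key fact**: if the test prime does not contain some `c` with a dual basis identity, then it is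
zero, and the ring is a domain. -/
theorem testP_eq_bot {p : ℕ} (hp : 2 ≤ p) [IsNoetherianRing R] {c : R} (h : DB p c)
    (hc : c ∉ testP p R) : testP p R = ⊥ := by
  have h1 : (1 : R) ∉ testP p R := fun h1 => hc (by
    have := (testP p R).mul_mem_left c h1
    rwa [mul_one] at this)
  have hprime := testP_isPrime (by omega) h1
  rw [eq_bot_iff]
  intro x hx
  rw [Ideal.mem_bot]
  by_contra hx0
  obtain ⟨s, hs, hsx⟩ := h.exists_ann hp hc (compat_testP p) hx
  have h2 : (Ideal.span {x}).annihilator ≠ ⊤ := by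
    intro ht
    have : (1 : R) ∈ (Ideal.span {x}).annihilator := ht ▸ Submodule.mem_top
    rw [Submodule.mem_annihilator_span_singleton, one_smul] at this
    exact hx0 this
  apply hs
  apply le_testP h2 (compat_ann p (by omega) x)
  rw [Submodule.mem_annihilator_span_singleton, smul_eq_mul]
  exact hsx

theorem isDomain_of_testP_eq_bot {p : ℕ} (hp : 0 < p) (h1 : (1 : R) ∉ testP p R)
    (h : testP p R = ⊥) : IsDomain R := by
  have hprime := testP_isPrime hp h1
  rw [h] at hprime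
  exact IsDomain.of_bot_isPrime R

/-- a ring with zero test prime is normal -/
theorem isIntegrallyClosed_of_testP_eq_bot {p : ℕ} [IsDomain R] (h : testP p R = ⊥) :
    IsIntegrallyClosed R := by
  rw [isIntegrallyClosed_iff (FractionRing R)]
  intro y hy
  obtain ⟨a, b, hb, rfl⟩ := IsFractionRing.div_surjective (A := R) y
  have hb0 : b ≠ 0 := nonZeroDivisors.ne_zero hb
  have hbK : algebraMap R (FractionRing R) b ≠ 0 := by
    rwa [Ne, FaithfulSMul.algebraMap_eq_zero_iff]
  -- a common denominator of all powers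
  obtain ⟨c, hc0, hc⟩ : ∃ c : R, c ≠ 0 ∧ ∀ n : ℕ, ∃ z : R, c * a ^ n = b ^ n * z := by
    have hfin : (Algebra.adjoin R {algebraMap R (FractionRing R) a /
        algebraMap R (FractionRing R) b}).toSubmodule.FG := hy.fg_adjoin_singleton
    obtain ⟨T, hT⟩ := hfin
    obtain ⟨c, hc⟩ := IsLocalization.exist_integer_multiples (nonZeroDivisors R)
      (T : Finset (FractionRing R)) (fun x => x)
    refine ⟨c, nonZeroDivisors.ne_zero c.2, fun n => ?_⟩
    have hmem : (algebraMap R (FractionRing R) a / algebraMap R (FractionRing R) b) ^ n ∈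
        Submodule.span R (T : Set (FractionRing R)) := by
      rw [hT]
      exact pow_mem (Algebra.subset_adjoin (Set.mem_singleton _)) n
    have hint : ∀ x ∈ Submodule.span R (T : Set (FractionRing R)),
        ∃ z : R, algebraMap R (FractionRing R) z = (c : R) • x := by
      intro x hx
      induction hx using Submodule.span_induction with
      | mem x hx => obtain ⟨z, hz⟩ := hc x hx; exact ⟨z, hz⟩
      | zero => exact ⟨0, by simp⟩
      | add x y _ _ hx hy =>
        obtain ⟨z, hz⟩ := hx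
        obtain ⟨z', hz'⟩ := hy
        exact ⟨z + z', by rw [map_add, hz, hz', smul_add]⟩
      | smul r x _ hx =>
        obtain ⟨z, hz⟩ := hx
        exact ⟨r * z, by rw [map_mul, hz, smul_comm, Algebra.smul_def, Algebra.smul_def]⟩
    obtain ⟨z, hz⟩ := hint _ hmem
    refine ⟨z, ?_⟩
    apply FaithfulSMul.algebraMap_injective R (FractionRing R)
    rw [map_mul, map_mul, map_pow, map_pow, hz, Algebra.smul_def, div_pow]
    field_simp
  have hcP : c ∉ testP p R := by rw [h, Ideal.mem_bot]; exact hc0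
  obtain ⟨e, φ, hφ, hu⟩ := exists_unit_of_notMem hcP
  obtain ⟨z, hz⟩ := hc (p ^ e)
  have h1 : a * φ c = b * φ z := by
    rw [← hφ, ← hφ, ← hz, mul_comm]
  obtain ⟨u, hu⟩ := hu
  refine ⟨φ z * ↑u⁻¹, ?_⟩
  rw [eq_div_iff hbK, ← map_mul]
  congr 1
  calc φ z * ↑u⁻¹ * b = (b * φ z) * ↑u⁻¹ := by ring
    _ = a * (φ c * ↑u⁻¹) := by rw [← h1]; ring
    _ = a := by rw [← hu, Units.mul_inv, mul_one]

end H35.SFR
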