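import Pool.Agent.Lib_helper35.SFR.Exist
import Pool.Agent.Lib_helper22.CN.MinRed

/-!
# The bound `N ≤ dim (R/I) q + C` for compatible ideals `I`
-/

set_option autoImplicit false

namespace H35.SFR

open IsLocalRing Pool.Agent.CN

variable {R S : Type*} [CommRing R] [CommRing S]

theorem span_range_pow_le {d : ℕ} (x : Fin d → R) (q : ℕ) :
    Ideal.span (Set.range x) ^ (d * q + 1) ≤ Ideal.span (Set.range fun i => x i ^ q) := by
  induction d with
  | zero =>
    rw [zero_mul, zero_add, pow_one]
    simp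
  | succ d ih =>
    have h1 : Ideal.span (Set.range x) =
        Ideal.span (Set.range (Fin.init x)) ⊔ Ideal.span {x (Fin.last d)} := by
      rw [← Ideal.span_union]
      congr 1
      ext y
      constructor
      · rintro ⟨i, rfl⟩
        refine Fin.lastCases ?_ (fun i => ?_) i
        · right; rfl
        · left; exact ⟨i, rfl⟩
      · rintro (⟨i, rfl⟩ | h)
        · exact ⟨i.castSucc, rfl⟩
        · exact ⟨Fin.last d, (Set.mem_singleton_iff.1 h).symm⟩
    have h2 : (d + 1) * q + 1 = (d * q + 1) + q := by ring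
    rw [h1, h2]
    refine Ideal.sup_pow_add_le_pow_sup_pow.trans ?_
    rw [sup_le_iff]
    constructor
    · refine (ih (Fin.init x)).trans (Ideal.span_mono ?_)
      rintro _ ⟨i, rfl⟩
      exact ⟨i.castSucc, rfl⟩
    · rw [Ideal.span_singleton_pow]
      refine Ideal.span_mono ?_
      rintro _ ⟨⟩
      exact ⟨Fin.last d, rfl⟩

/-- The main estimate: `x` generates a reduction of `m` modulo the compatible ideal `I`. -/
theorem bound [IsLocalRing R] {p e : ℕ} {I : Ideal R} (hI : I ≠ ⊤) (hcomp : Compat p I) {d n : ℕ}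
    (x : Fin d → R) (hx : ∀ i, x i ∈ maximalIdeal R)
    (hred : maximalIdeal R ^ (n + 1) ≤ Ideal.span (Set.range x) * maximalIdeal R ^ n ⊔ I)
    {φ : R →+ R} (hφ : IsCartier (p ^ e) φ) {N : ℕ} {f : R} (hf : f ∈ maximalIdeal R ^ N)
    (hu : IsUnit (φ f)) : N ≤ d * p ^ e + n := by
  by_contra hcon
  push Not at hcon
  set m := maximalIdeal R with hm
  set J := Ideal.span (Set.range x) with hJ
  have hind : ∀ j, m ^ (n + j) ≤ J ^ j * m ^ n ⊔ I := by
    intro j
    induction j with
    | zero => simp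
    | succ j ih =>
      calc m ^ (n + (j + 1)) = m * m ^ (n + j) := by ring
        _ ≤ m * (J ^ j * m ^ n ⊔ I) := Ideal.mul_mono_right ih
        _ = J ^ j * m ^ (n + 1) ⊔ m * I := by rw [Ideal.mul_sup]; ring_nf
        _ ≤ J ^ j * (J * m ^ n ⊔ I) ⊔ I :=
          sup_le_sup (Ideal.mul_mono_right hred) Ideal.mul_le_right
        _ = J ^ (j + 1) * m ^ n ⊔ J ^ j * I ⊔ I := by rw [Ideal.mul_sup]; ring_nf
        _ ≤ J ^ (j + 1) * m ^ n ⊔ I := by
          rw [sup_assoc]
          exact sup_le_sup_left (sup_le Ideal.mul_le_right le_rfl) _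
  have h1 : f ∈ J ^ (d * p ^ e + 1) * m ^ n ⊔ I := by
    apply hind
    exact Ideal.pow_le_pow_right (by omega) hf
  obtain ⟨a, ha, b, hb, hab⟩ := Submodule.mem_sup.1 h1
  have ha' : a ∈ Ideal.span (Set.range fun i => x i ^ p ^ e) :=
    span_range_pow_le x (p ^ e) (Ideal.mul_le_left ha)
  have hkey : ∀ y ∈ Ideal.span (Set.range fun i => x i ^ p ^ e), ∀ r, φ (r * y) ∈ m := by
    intro y hy
    induction hy using Submodule.span_induction with
    | mem y hy =>
      obtain ⟨i, rfl⟩ := hy
      intro r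
      simp only []
      rw [mul_comm, hφ]
      exact Ideal.mul_mem_right _ _ (hx i)
    | zero => intro r; simp
    | add y z _ _ hy hz =>
      intro r
      rw [mul_add, map_add]
      exact add_mem (hy r) (hz r)
    | smul a y _ hy =>
      intro r
      rw [smul_eq_mul, ← mul_assoc]
      exact hy _
  have h2 : φ f ∈ m := by
    rw [← hab, map_add]
    refine add_mem ?_ (le_maximalIdeal hI (hcomp e φ hφ b hb))
    have := hkey a ha' 1
    rwa [one_mul] at this
  exact (mem_maximalIdeal _).1 h2 hu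

theorem maximalIdeal_quotient [IsLocalRing R] (I : Ideal R) [IsLocalRing (R ⧸ I)] :
    maximalIdeal (R ⧸ I) = (maximalIdeal R).map (Ideal.Quotient.mk I) := by
  have hloc : IsLocalHom (Ideal.Quotient.mk I) :=
    IsLocalHom.of_surjective _ Ideal.Quotient.mk_surjective
  refine le_antisymm ?_ ?_
  · intro y hy
    obtain ⟨r, rfl⟩ := Ideal.Quotient.mk_surjective y
    apply Ideal.mem_map_of_mem
    rw [mem_maximalIdeal, mem_nonunits_iff] at hy ⊢
    exact fun hu => hy (hu.map _)
  · rw [Ideal.map_le_iff_le_comap]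
    intro r hr
    rw [Ideal.mem_comap, mem_maximalIdeal, mem_nonunits_iff]
    intro hu
    exact (mem_maximalIdeal _).1 hr (isUnit_of_map_unit _ _ hu)

/-- quotients of complete Noetherian local rings are complete -/
theorem isAdicComplete_quotient [IsLocalRing R] [IsNoetherianRing R]
    [IsAdicComplete (maximalIdeal R) R] (I : Ideal R) [IsLocalRing (R ⧸ I)] :
    IsAdicComplete (maximalIdeal (R ⧸ I)) (R ⧸ I) := by
  set m := maximalIdeal R with hm
  have hmap := maximalIdeal_quotient I
  have hpow : ∀ n, ∀ y ∈ maximalIdeal (R ⧸ I) ^ n, ∃ r ∈ m ^ n, Ideal.Quotient.mk I r = y := by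
    intro n y hy
    rw [hmap, ← Ideal.map_pow] at hy
    exact (Ideal.mem_map_iff_of_surjective _ Ideal.Quotient.mk_surjective).1 hy
  have hhaus : IsHausdorff (maximalIdeal (R ⧸ I)) (R ⧸ I) := by
    refine ⟨fun x hx => ?_⟩
    have h1 := Ideal.iInf_pow_eq_bot_of_isLocalRing (maximalIdeal (R ⧸ I))
      (Ideal.IsPrime.ne_top inferInstance)
    rw [← Ideal.mem_bot, ← h1, Submodule.mem_iInf]
    intro n
    have := hx n
    rwa [SModEq.sub_mem, sub_zero, smul_eq_mul, Ideal.mul_top] at this
  have hprec : IsPrecomplete (maximalIdeal (R ⧸ I)) (R ⧸ I) := by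
    refine ⟨fun f hf => ?_⟩
    have h1 : ∀ n, ∃ r ∈ m ^ n, Ideal.Quotient.mk I r = f (n + 1) - f n := by
      intro n
      apply hpow
      have := hf (Nat.le_succ n)
      rw [SModEq.sub_mem, smul_eq_mul, Ideal.mul_top] at this
      have h2 := neg_mem this
      rwa [neg_sub] at h2
    choose r hr hr' using h1
    obtain ⟨a0, ha0⟩ := Ideal.Quotient.mk_surjective (f 0)
    obtain ⟨L, hL⟩ := prec m (fun n => a0 + ∑ i ∈ Finset.range n, r i) (by
      intro k n hkn
      obtain ⟨j, rfl⟩ := Nat.exists_eq_add_of_le hkn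
      rw [Finset.sum_range_add]
      have e : a0 + ∑ i ∈ Finset.range k, r i -
          (a0 + (∑ i ∈ Finset.range k, r i + ∑ i ∈ Finset.range j, r (k + i))) =
          - ∑ i ∈ Finset.range j, r (k + i) := by ring
      rw [e]
      refine neg_mem (Submodule.sum_mem _ fun i _ => ?_)
      exact Ideal.pow_le_pow_right (Nat.le_add_right k i) (hr (k + i)))
    refine ⟨Ideal.Quotient.mk I L, fun n => ?_⟩
    rw [SModEq.sub_mem, smul_eq_mul, Ideal.mul_top]
    have h2 : f n = Ideal.Quotient.mk I (a0 + ∑ i ∈ Finset.range n, r i) := by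
      rw [map_add, map_sum, ha0]
      simp only [hr']
      rw [Finset.sum_range_sub]
      ring
    rw [h2, ← map_sub, hmap, ← Ideal.map_pow]
    exact Ideal.mem_map_of_mem _ (hL n)
  exact { hhaus, hprec with }

end H35.SFR
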