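import Pool.Agent.Lib_helper35.SFR.Ext

/-!
# Existence of dual basis identities for F-finite domains
-/

set_option autoImplicit false

namespace H35.SFR

open IsLocalRing

variable {R S : Type*} [CommRing R] [CommRing S]

/-- `R` is finite over its subring of `p`-th powers -/
def FFin (p : ℕ) (R : Type*) [CommRing R] : Prop :=
  ∃ (n : ℕ) (g : Fin n → R), ∀ r, ∃ a : Fin n → R, r = ∑ i, a i ^ p * g i

theorem FFin.localization {p : ℕ} (hp : 0 < p) (h : FFin p R) (M : Submonoid R) [Algebra R S]
    [IsLocalization M S] : FFin p S := by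
  obtain ⟨n, g, hg⟩ := h
  refine ⟨n, fun i => algebraMap R S (g i), fun z => ?_⟩
  obtain ⟨r, s, rfl⟩ := IsLocalization.exists_mk'_eq M z
  obtain ⟨a, ha⟩ := hg (r * s ^ (p - 1))
  refine ⟨fun i => IsLocalization.mk' S (a i) s, ?_⟩
  have h1 : IsLocalization.mk' S r s = IsLocalization.mk' S (r * s ^ (p - 1)) (s ^ p) := by
    rw [IsLocalization.mk'_eq_iff_eq]
    congr 1
    obtain ⟨k, rfl⟩ : ∃ k, p = k + 1 := ⟨p - 1, by omega⟩
    simp only [Nat.add_sub_cancel, SubmonoidClass.coe_pow]
    ring
  rw [h1, ha, IsLocalization.mk'_eq_mul_mk'_one, map_sum, Finset.sum_mul]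
  refine Finset.sum_congr rfl fun i _ => ?_
  simp only []
  rw [IsLocalization.mk'_eq_mul_mk'_one (a i) s, mul_pow, ← IsLocalization.mk'_pow, one_pow,
    map_mul, map_pow]
  ring

/-- `S` as an algebra over itself via Frobenius -/
def Fr (_p : ℕ) (S : Type*) := S

instance (p : ℕ) (S : Type*) [CommRing S] : CommRing (Fr p S) :=
  inferInstanceAs (CommRing S)

instance (p : ℕ) (S : Type*) [CommRing S] [IsDomain S] : IsDomain (Fr p S) :=
  inferInstanceAs (IsDomain S)

/-- identity map -/
def toFr (p : ℕ) (S : Type*) [CommRing S] : S ≃+* Fr p S := RingEquiv.refl S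

instance (p : ℕ) (S : Type*) [CommRing S] [Fact p.Prime] [CharP S p] : Algebra S (Fr p S) :=
  ((toFr p S).toRingHom.comp (frobenius S p)).toAlgebra

theorem Fr.smul_def {p : ℕ} {S : Type*} [CommRing S] [Fact p.Prime] [CharP S p] (r : S)
    (z : Fr p S) : r • z = toFr p S (r ^ p) * z := by
  rw [Algebra.smul_def]; rfl

/-- a principal ideal domain which is F-finite has an exact dual basis -/
theorem exists_dual_basis (p : ℕ) [hp : Fact p.Prime] (S : Type*) [CommRing S] [IsDomain S]
    [IsPrincipalIdealRing S] [CharP S p] (h : FFin p S) :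
    ∃ (n : ℕ) (b : Fin n → S) (π : Fin n → S →+ S), (∀ i, IsCartier p (π i)) ∧
      ∀ r, r = ∑ i, π i r ^ p * b i := by
  obtain ⟨n, g, hg⟩ := h
  have hfin : Module.Finite S (Fr p S) := by
    rw [Module.finite_def]
    have h1 : (⊤ : Submodule S (Fr p S)) =
        Submodule.span S (Set.range (fun i => toFr p S (g i))) := by
      symm
      rw [eq_top_iff]
      intro z _
      obtain ⟨a, ha⟩ := hg ((toFr p S).symm z)
      have h2 : z = ∑ i, a i • (toFr p S (g i)) := by
        have h3 := congrArg (toFr p S) ha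
        rw [RingEquiv.apply_symm_apply, map_sum] at h3
        rw [h3]
        refine Finset.sum_congr rfl fun i _ => ?_
        rw [Fr.smul_def, map_mul]
      rw [h2]
      exact Submodule.sum_mem _ fun i _ => Submodule.smul_mem _ _ (Submodule.subset_span ⟨i, rfl⟩)
    rw [h1]
    exact Submodule.fg_span (Set.finite_range _)
  have htf : Module.IsTorsionFree S (Fr p S) := by
    rw [Module.isTorsionFree_iff_smul_eq_zero]
    intro r z hrz
    rw [Fr.smul_def] at hrz
    rcases mul_eq_zero.1 hrz with h1 | h1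
    · left
      rw [EmbeddingLike.map_eq_zero_iff] at h1
      exact pow_eq_zero_iff hp.out.ne_zero |>.1 h1
    · exact Or.inr h1
  let B := Module.finBasis S (Fr p S)
  refine ⟨_, fun i => (toFr p S).symm (B i), fun i =>
    { toFun := fun z => B.repr (toFr p S z) i, map_zero' := by simp, map_add' := by simp }, ?_, ?_⟩
  · intro i r z
    change B.repr (toFr p S (r ^ p * z)) i = r * B.repr (toFr p S z) i
    have h1 : toFr p S (r ^ p * z) = r • toFr p S z := by rw [Fr.smul_def, map_mul]
    rw [h1]; simp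
  · intro r
    have h1 := B.sum_repr (toFr p S r)
    have h2 := congrArg (toFr p S).symm h1
    rw [RingEquiv.symm_apply_apply, map_sum] at h2
    rw [← h2]
    refine Finset.sum_congr rfl fun i _ => ?_
    rw [Fr.smul_def, map_mul, RingEquiv.symm_apply_apply]
    rw [h2]
    rfl

/-- dual basis identities exist away from a prime `P` such that `R_P` is principal -/
theorem exists_DB (p : ℕ) [hp : Fact p.Prime] [IsDomain R] [CharP R p] (h : FFin p R)
    (P : Ideal R) [P.IsPrime] [IsPrincipalIdealRing (Localization.AtPrime P)] :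
    ∃ c, c ∉ P ∧ DB p c := by
  classical
  have hp0 : 0 < p := hp.out.pos
  set S := Localization.AtPrime P with hS
  have hinj : Function.Injective (algebraMap R S) :=
    IsLocalization.injective S P.primeCompl_le_nonZeroDivisors
  have : CharP S p := charP_of_injective_algebraMap hinj p
  obtain ⟨m, b, π, hπ, hid⟩ := exists_dual_basis p S (h.localization hp0 P.primeCompl)
  obtain ⟨n, g, hg⟩ := h
  -- clear the denominators of `b`
  obtain ⟨c2, hc2⟩ := IsLocalization.exist_integer_multiples_of_finset P.primeCompl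
    (Finset.univ.image b)
  have hb' : ∀ i, ∃ b' : R, algebraMap R S b' = algebraMap R S c2 * b i := by
    intro i
    obtain ⟨z, hz⟩ := hc2 (b i) (Finset.mem_image_of_mem _ (Finset.mem_univ _))
    exact ⟨z, by rw [hz, Algebra.smul_def]⟩
  choose b' hb' using hb'
  obtain ⟨u, hu⟩ : IsUnit (algebraMap R S c2) := IsLocalization.map_units S c2
  -- clear the denominators of `π_i (g_j) / c2`
  obtain ⟨c3, hc3⟩ := IsLocalization.exist_integer_multiples_of_finset P.primeCompl
    ((Finset.univ : Finset (Fin m × Fin n)).image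
      (fun ij => (↑u⁻¹ : S) * π ij.1 (algebraMap R S (g ij.2))))
  have hy : ∀ i j, ∃ y : R, algebraMap R S y =
      algebraMap R S c3 * ((↑u⁻¹ : S) * π i (algebraMap R S (g j))) := by
    intro i j
    obtain ⟨z, hz⟩ := hc3 ((↑u⁻¹ : S) * π i (algebraMap R S (g j)))
      (Finset.mem_image.2 ⟨(i, j), Finset.mem_univ _, rfl⟩)
    exact ⟨z, by rw [hz, Algebra.smul_def]⟩
  choose y hy using hy
  have hex : ∀ i r, ∃ z : R, algebraMap R S z =
      algebraMap R S c3 * ((↑u⁻¹ : S) * π i (algebraMap R S r)) := by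
    intro i r
    obtain ⟨a, ha⟩ := hg r
    refine ⟨∑ j, a j * y i j, ?_⟩
    rw [ha, map_sum, map_sum, map_sum, Finset.mul_sum, Finset.mul_sum]
    refine Finset.sum_congr rfl fun j _ => ?_
    rw [map_mul, hy, map_mul, map_pow, hπ]
    ring
  choose f hf using hex
  refine ⟨c3, c3.2, m, fun i => (c2 : R) ^ (p - 1) * b' i, fun i =>
    { toFun := f i
      map_zero' := hinj (by rw [hf]; simp)
      map_add' := fun r r' => hinj (by
        rw [hf, map_add, map_add, map_add, hf, hf]; ring) }, ?_, ?_⟩
  · intro i r z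
    change f i (r ^ p * z) = r * f i z
    apply hinj
    rw [hf, map_mul, map_pow, hπ, map_mul, hf]
    ring
  · intro r
    change (c3 : R) ^ p * r = ∑ i, f i r ^ p * ((c2 : R) ^ (p - 1) * b' i)
    apply hinj
    rw [map_mul, map_sum, hid (algebraMap R S r), Finset.mul_sum]
    refine Finset.sum_congr rfl fun i _ => ?_
    rw [map_mul, map_mul, map_pow, map_pow, map_pow, hf, hb', ← hu]
    obtain ⟨k, hk⟩ : ∃ k, p = k + 1 := ⟨p - 1, by omega⟩
    have h1 : (↑u⁻¹ : S) ^ p * ((u : S) ^ (p - 1) * ((u : S) * b i)) = b i := by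
      have h2 : (↑u⁻¹ : S) ^ p * (u : S) ^ p = 1 := by
        rw [← mul_pow, Units.inv_mul, one_pow]
      calc (↑u⁻¹ : S) ^ p * ((u : S) ^ (p - 1) * ((u : S) * b i))
          = ((↑u⁻¹ : S) ^ p * (u : S) ^ p) * b i := by
            rw [hk]; simp only [Nat.add_sub_cancel]; ring
        _ = b i := by rw [h2, one_mul]
    rw [mul_pow, mul_pow]
    calc algebraMap R S c3 ^ p * (π i (algebraMap R S r) ^ p * b i)
        = algebraMap R S c3 ^ p * π i (algebraMap R S r) ^ p *
          ((↑u⁻¹ : S) ^ p * ((u : S) ^ (p - 1) * ((u : S) * b i))) := by rw [h1]; ring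
      _ = _ := by ring

end H35.SFR
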