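import Pool.Agent.Lib_helper35.SFR.Basic

/-!
# Extension of Cartier maps to completions
-/

set_option autoImplicit false

namespace H35.SFR

open IsLocalRing

variable {R S : Type*} [CommRing R] [CommRing S]

/-- all Cartier maps of `R` extend to `S`, and so do dual basis identities -/
structure CartExt (p : ℕ) (ι : R →+* S) : Prop where
  ext : ∀ (e : ℕ) (φ : R →+ R), IsCartier (p ^ e) φ →
    ∃ ψ : S →+ S, IsCartier (p ^ e) ψ ∧ ∀ r, ψ (ι r) = ι (φ r)
  db : ∀ c, DB p c → DB p (ι c)

theorem CartExt.comp {T : Type*} [CommRing T] {p : ℕ} {ι : R →+* S} {κ : S →+* T}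
    (h : CartExt p ι) (h' : CartExt p κ) : CartExt p (κ.comp ι) where
  ext e φ hφ := by
    obtain ⟨ψ, hψ, hψ'⟩ := h.ext e φ hφ
    obtain ⟨χ, hχ, hχ'⟩ := h'.ext e ψ hψ
    exact ⟨χ, hχ, fun r => by rw [RingHom.comp_apply, hχ', hψ', RingHom.comp_apply]⟩
  db c hc := by
    rw [RingHom.comp_apply]
    exact h'.db _ (h.db _ hc)

/-- Cartier maps are continuous -/
theorem IsCartier.cont [IsNoetherianRing R] {q : ℕ} {φ : R →+ R} (h : IsCartier q φ)
    (I : Ideal R) (n : ℕ) : ∃ N, ∀ x ∈ I ^ N, φ x ∈ I ^ n := by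
  set J : Ideal R := Ideal.span ((fun g => g ^ q) '' (I ^ n : Ideal R)) with hJ
  have hrad : I ^ n ≤ J.radical := by
    intro g hg
    exact ⟨q, Ideal.subset_span ⟨g, hg, rfl⟩⟩
  obtain ⟨k, hk⟩ := Ideal.exists_pow_le_of_le_radical_of_fg hrad (IsNoetherian.noetherian _)
  refine ⟨n * k, fun x hx => ?_⟩
  rw [pow_mul] at hx
  have hxJ := hk hx
  have key : ∀ y ∈ J, ∀ r, φ (r * y) ∈ I ^ n := by
    intro y hy
    induction hy using Submodule.span_induction with
    | mem y hy =>
      obtain ⟨g, hg, rfl⟩ := hy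
      intro r
      rw [mul_comm, h]
      exact Ideal.mul_mem_right _ _ hg
    | zero => intro r; simp
    | add y z _ _ hy hz =>
      intro r
      rw [mul_add, map_add]
      exact add_mem (hy r) (hz r)
    | smul a y _ hy =>
      intro r
      rw [smul_eq_mul, ← mul_assoc]
      exact hy _
  have := key x hxJ 1
  rwa [one_mul] at this

/-- `ι : R → S` is a completion map of local rings -/
structure IsCompl [IsLocalRing R] [IsLocalRing S] (ι : R →+* S) : Prop where
  complete : IsAdicComplete (maximalIdeal S) S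
  dense : ∀ (n : ℕ) (x : S), ∃ r, x - ι r ∈ maximalIdeal S ^ n
  comap : ∀ (n : ℕ) (r : R), ι r ∈ maximalIdeal S ^ n → r ∈ maximalIdeal R ^ n
  map : ∀ (n : ℕ) (r : R), r ∈ maximalIdeal R ^ n → ι r ∈ maximalIdeal S ^ n

theorem haus (I : Ideal S) [IsHausdorff I S] {x : S} (h : ∀ n, x ∈ I ^ n) : x = 0 := by
  refine IsHausdorff.haus (I := I) inferInstance x fun n => ?_
  rw [SModEq.sub_mem, sub_zero, smul_eq_mul, Ideal.mul_top]
  exact h n

theorem haus_eq (I : Ideal S) [IsHausdorff I S] {x y : S} (h : ∀ n, x - y ∈ I ^ n) : x = y :=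
  sub_eq_zero.1 (haus I h)

theorem prec (I : Ideal S) [IsPrecomplete I S] (f : ℕ → S)
    (h : ∀ m n, m ≤ n → f m - f n ∈ I ^ m) : ∃ L, ∀ n, f n - L ∈ I ^ n := by
  obtain ⟨L, hL⟩ := IsPrecomplete.prec (I := I) (M := S) inferInstance (f := f) (by
    intro m n hmn
    rw [SModEq.sub_mem, smul_eq_mul, Ideal.mul_top]
    exact h m n hmn)
  refine ⟨L, fun n => ?_⟩
  have := hL n
  rwa [SModEq.sub_mem, smul_eq_mul, Ideal.mul_top] at this

/-- extension of a Cartier map to the completion, with a modulus of continuity -/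
theorem IsCompl.extend [IsLocalRing R] [IsLocalRing S] [IsNoetherianRing R] {ι : R →+* S}
    (h : IsCompl ι) {q : ℕ} {φ : R →+ R} (hφ : IsCartier q φ) :
    ∃ ψ : S →+ S, IsCartier q ψ ∧ (∀ r, ψ (ι r) = ι (φ r)) ∧
      ∀ n, ∃ N, ∀ (x : S) (r : R), x - ι r ∈ maximalIdeal S ^ N →
        ψ x - ι (φ r) ∈ maximalIdeal S ^ n := by
  have := h.complete
  set M := maximalIdeal S with hM
  -- modulus
  have hN : ∀ n, ∃ N, n ≤ N ∧ ∀ x ∈ maximalIdeal R ^ N, φ x ∈ maximalIdeal R ^ n := by
    intro n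
    obtain ⟨N, hN⟩ := hφ.cont (maximalIdeal R) n
    exact ⟨max n N, le_max_left _ _, fun x hx => hN x (Ideal.pow_le_pow_right (le_max_right _ _) hx)⟩
  choose N0 hN0 hN0' using hN
  set N : ℕ → ℕ := fun n => ∑ i ∈ Finset.range (n + 1), N0 i with hNdef
  have hmono : Monotone N := by
    intro a b hab
    apply Finset.sum_le_sum_of_subset
    exact Finset.range_mono (by omega)
  have hNN : ∀ n, N0 n ≤ N n := fun n =>
    Finset.single_le_sum (f := N0) (fun _ _ => Nat.zero_le _) (Finset.mem_range.2 (by omega))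
  have hNn : ∀ n, n ≤ N n := fun n => (hN0 n).trans (hNN n)
  have hφN : ∀ n, ∀ x ∈ maximalIdeal R ^ N n, φ x ∈ maximalIdeal R ^ n := fun n x hx =>
    hN0' n x (Ideal.pow_le_pow_right (hNN n) hx)
  -- two approximations give close values
  have hclose : ∀ n (x : S) (r r' : R), x - ι r ∈ M ^ N n → x - ι r' ∈ M ^ N n →
      ι (φ r) - ι (φ r') ∈ M ^ n := by
    intro n x r r' h1 h2
    rw [← map_sub, ← map_sub]
    apply h.map
    apply hφN
    apply h.comap
    rw [map_sub]
    have := sub_mem h2 h1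
    have e : x - ι r' - (x - ι r) = ι r - ι r' := by ring
    rwa [e] at this
  choose a ha using fun (x : S) (n : ℕ) => h.dense (N n) x
  have hlim : ∀ x : S, ∃ L, ∀ n, ι (φ (a x n)) - L ∈ M ^ n := by
    intro x
    apply prec M
    intro m n hmn
    exact hclose m x _ _ (ha x m) (Ideal.pow_le_pow_right (hmono hmn) (ha x n))
  choose L hL using hlim
  have key : ∀ n (x : S) (r : R), x - ι r ∈ M ^ N n → L x - ι (φ r) ∈ M ^ n := by
    intro n x r hr
    have h1 := hclose n x _ _ (ha x n) hr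
    have h2 := sub_mem h1 (hL x n)
    have e : ι (φ (a x n)) - ι (φ r) - (ι (φ (a x n)) - L x) = L x - ι (φ r) := by ring
    rwa [e] at h2
  refine ⟨{ toFun := L, map_zero' := ?_, map_add' := ?_ }, ?_, ?_, fun n => ⟨N n, key n⟩⟩
  · apply haus M
    intro n
    have := key n 0 0 (by simp)
    simpa using this
  · intro x y
    apply haus_eq M
    intro n
    have h1 := key n x (a x n) (ha x n)
    have h2 := key n y (a y n) (ha y n)
    have h3 := key n (x + y) (a x n + a y n) (by
      have := add_mem (ha x n) (ha y n)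
      have e : x - ι (a x n) + (y - ι (a y n)) = x + y - ι (a x n + a y n) := by
        rw [map_add]; ring
      rwa [e] at this)
    have h4 := sub_mem h3 (add_mem h1 h2)
    have e : L (x + y) - ι (φ (a x n + a y n)) - (L x - ι (φ (a x n)) + (L y - ι (φ (a y n)))) =
        L (x + y) - (L x + L y) := by
      rw [map_add, map_add]; ring
    rwa [e] at h4
  · intro y x
    change L (y ^ q * x) = y * L x
    apply haus_eq M
    intro n
    have h1 := key n x (a x n) (ha x n)
    have h2 := key n (y ^ q * x) (a y n ^ q * a x n) (by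
      have e : y ^ q * x - ι (a y n ^ q * a x n) =
          (y ^ q - ι (a y n) ^ q) * x + ι (a y n) ^ q * (x - ι (a x n)) := by
        rw [map_mul, map_pow]; ring
      rw [e]
      refine add_mem (Ideal.mul_mem_right _ _ ?_) (Ideal.mul_mem_left _ _ (ha x n))
      obtain ⟨z, hz⟩ := sub_dvd_pow_sub_pow y (ι (a y n)) q
      rw [hz]
      exact Ideal.mul_mem_right _ _ (ha y n))
    rw [hφ, map_mul] at h2
    have h3 : y - ι (a y n) ∈ M ^ n := Ideal.pow_le_pow_right (hNn n) (ha y n)
    have e : L (y ^ q * x) - y * L x = (L (y ^ q * x) - ι (a y n) * ι (φ (a x n))) -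
        (y * (L x - ι (φ (a x n))) + (y - ι (a y n)) * ι (φ (a x n))) := by ring
    rw [e]
    exact sub_mem h2 (add_mem (Ideal.mul_mem_left _ _ h1) (Ideal.mul_mem_right _ _ h3))
  · intro r
    change L (ι r) = ι (φ r)
    apply haus_eq M
    intro n
    exact key n (ι r) r (by simp)

/-- completions extend Cartier maps and dual basis identities -/
theorem IsCompl.cartExt [IsLocalRing R] [IsLocalRing S] [IsNoetherianRing R] {ι : R →+* S}
    (h : IsCompl ι) {p : ℕ} : CartExt p ι where
  ext e φ hφ := by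
    obtain ⟨ψ, h1, h2, _⟩ := h.extend hφ
    exact ⟨ψ, h1, h2⟩
  db c hc := by
    obtain ⟨n, b, π, hπ, hid⟩ := hc
    have := h.complete
    choose ψ hψ hψ' hmod using fun i => h.extend (hπ i)
    refine ⟨n, fun i => ι (b i), ψ, hψ, fun x => ?_⟩
    apply haus_eq (maximalIdeal S)
    intro k
    choose N hN using fun i => hmod i k
    set K := k + ∑ i, N i with hK
    obtain ⟨r, hr⟩ := h.dense K x
    have h1 : ∀ i, ψ i x - ι (π i r) ∈ maximalIdeal S ^ k := by
      intro i
      apply hN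
      refine Ideal.pow_le_pow_right ?_ hr
      have := Finset.single_le_sum (f := N) (fun _ _ => Nat.zero_le _) (Finset.mem_univ i)
      omega
    have h2 : x - ι r ∈ maximalIdeal S ^ k := Ideal.pow_le_pow_right (by omega) hr
    have e : ι c ^ p * x - ∑ i, ψ i x ^ p * ι (b i) =
        ι c ^ p * (x - ι r) - ∑ i, (ψ i x ^ p - ι (π i r) ^ p) * ι (b i) := by
      have h3 := congrArg ι (hid r)
      rw [map_mul, map_pow, map_sum] at h3
      simp only [map_mul, map_pow] at h3
      rw [mul_sub, h3]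
      simp only [sub_mul, Finset.sum_sub_distrib]
      ring
    rw [e]
    refine sub_mem (Ideal.mul_mem_left _ _ h2) (Submodule.sum_mem _ fun i _ => ?_)
    obtain ⟨z, hz⟩ := sub_dvd_pow_sub_pow (ψ i x) (ι (π i r)) p
    rw [hz]
    exact Ideal.mul_mem_right _ _ (Ideal.mul_mem_right _ _ (h1 i))

end H35.SFR
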