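import Pool.Agent.Lib_helper35.SFR.Bound

/-!
# Block (2): strong F-regularity
-/

set_option autoImplicit false

namespace H35.SFR

open IsLocalRing Pool.Agent.CN

variable {R S : Type*} [CommRing R] [CommRing S]

/-- excess hypothesis: F-pure threshold of the maximal ideal `> c` -/
def Excess (p : ℕ) (R : Type*) [CommRing R] [IsLocalRing R] (c : ℕ) : Prop :=
  ∀ n : ℕ, ∃ (e : ℕ) (φ : R →+ R) (N : ℕ) (f : R), IsCartier (p ^ e) φ ∧
    f ∈ maximalIdeal R ^ N ∧ IsUnit (φ f) ∧ c * p ^ e + n < N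

theorem Excess.one_notMem [IsLocalRing R] {p c : ℕ} (h : Excess p R c) : (1 : R) ∉ testP p R := by
  obtain ⟨e, φ, N, f, hφ, _, hu, _⟩ := h 0
  refine notMem_of_unit (hφ.premul f) (φ := premul φ f) ?_
  rw [premul_apply, mul_one]
  exact hu

/-- dimension of the test prime -/
theorem dim_testP [IsLocalRing S] [IsNoetherianRing S] [IsAdicComplete (maximalIdeal S) S]
    {p : ℕ} {k : Type*} [Field k] [Infinite k] (s : k →+* S)
    (hs : ∀ x : S, ∃ a : k, x - s a ∈ maximalIdeal S) {c : ℕ} (h : Excess p S c) {P : Ideal S}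
    (hP : P ≠ ⊤) (hcomp : Compat p P) : (c : WithBot ℕ∞) < ringKrullDim (S ⧸ P) := by
  have hnt : Nontrivial (S ⧸ P) := Ideal.Quotient.nontrivial_iff.2 hP
  have hloc : IsLocalRing (S ⧸ P) :=
    IsLocalRing.of_surjective' (Ideal.Quotient.mk P) Ideal.Quotient.mk_surjective
  have hcompl := isAdicComplete_quotient P
  by_contra hcon
  rw [not_lt] at hcon
  -- the dimension is a natural number `≤ c`
  obtain ⟨d, hd⟩ : ∃ d : ℕ, ringKrullDim (S ⧸ P) = d := by
    have h1 : ringKrullDim (S ⧸ P) ≠ ⊤ := fun ht => by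
      rw [ht] at hcon
      exact absurd hcon (not_le.2 (WithBot.coe_lt_coe.2 (ENat.natCast_lt_top c)))
    have h2 : ringKrullDim (S ⧸ P) ≠ ⊥ := ringKrullDim_ne_bot
    lift ringKrullDim (S ⧸ P) to ℕ∞ using h2 with D hD
    have h3 : D ≠ ⊤ := fun ht => h1 (by rw [ht]; rfl)
    lift D to ℕ using h3 with D'
    exact ⟨D', rfl⟩
  have hdc : d ≤ c := by
    rw [hd] at hcon
    exact_mod_cast hcon
  obtain ⟨y, hy, n, hn⟩ := exists_red (R := S ⧸ P) ((Ideal.Quotient.mk P).comp s) (by
    intro r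
    obtain ⟨x, rfl⟩ := Ideal.Quotient.mk_surjective r
    obtain ⟨a, ha⟩ := hs x
    refine ⟨a, ?_⟩
    rw [RingHom.comp_apply, ← map_sub, maximalIdeal_quotient]
    exact Ideal.mem_map_of_mem _ ha) hd
  have hlift : ∀ i, ∃ x ∈ maximalIdeal S, Ideal.Quotient.mk P x = y i := by
    intro i
    have := hy i
    rw [maximalIdeal_quotient] at this
    exact (Ideal.mem_map_iff_of_surjective _ Ideal.Quotient.mk_surjective).1 this
  choose x hx hxy using hlift
  have hred : maximalIdeal S ^ (n + 1) ≤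
      Ideal.span (Set.range x) * maximalIdeal S ^ n ⊔ P := by
    intro z hz
    have h1 : Ideal.Quotient.mk P z ∈
        Ideal.map (Ideal.Quotient.mk P) (Ideal.span (Set.range x) * maximalIdeal S ^ n) := by
      have h2 := hn (by
        rw [maximalIdeal_quotient, ← Ideal.map_pow]
        exact Ideal.mem_map_of_mem _ hz)
      rw [maximalIdeal_quotient, ← Ideal.map_pow] at h2
      rw [Ideal.map_mul, Ideal.map_span, ← Set.range_comp]
      have e : (Ideal.Quotient.mk P) ∘ x = y := funext hxy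
      rw [e]
      exact h2
    obtain ⟨w, hw, hwz⟩ := (Ideal.mem_map_iff_of_surjective _ Ideal.Quotient.mk_surjective).1 h1
    have h3 : z - w ∈ P := by
      rw [← Ideal.Quotient.eq, hwz]
    exact Submodule.mem_sup.2 ⟨w, hw, z - w, h3, by ring⟩
  obtain ⟨e, φ, N, f, hφ, hf, hu, hN⟩ := h n
  have := bound hP hcomp x hx hred hφ hf hu
  have h4 : d * p ^ e ≤ c * p ^ e := Nat.mul_le_mul_right _ hdc
  omega

/-- dimension comparison -/
theorem dim_quotient_comap_le [IsLocalRing R] [IsNoetherianRing R] [IsLocalRing S]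
    [IsNoetherianRing S] (ι : R →+* S) (hm : (maximalIdeal R).map ι = maximalIdeal S)
    (P : Ideal S) [P.IsPrime] :
    ringKrullDim (S ⧸ P) ≤ ringKrullDim (R ⧸ P.comap ι) := by
  have hp : (P.comap ι).IsPrime := Ideal.comap_isPrime ι P
  have hlocS : IsLocalRing (S ⧸ P) :=
    IsLocalRing.of_surjective' (Ideal.Quotient.mk P) Ideal.Quotient.mk_surjective
  have hlocR : IsLocalRing (R ⧸ P.comap ι) :=
    IsLocalRing.of_surjective' (Ideal.Quotient.mk _) Ideal.Quotient.mk_surjective
  let κ : R ⧸ P.comap ι →+* S ⧸ P := Ideal.quotientMap P ι le_rfl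
  let _ : Algebra (R ⧸ P.comap ι) (S ⧸ P) := κ.toAlgebra
  have hmap : (maximalIdeal (R ⧸ P.comap ι)).map (algebraMap (R ⧸ P.comap ι) (S ⧸ P)) =
      maximalIdeal (S ⧸ P) := by
    rw [maximalIdeal_quotient, maximalIdeal_quotient, ← hm, Ideal.map_map, Ideal.map_map]
    congr 1
  have hlo : (maximalIdeal (S ⧸ P)).LiesOver (maximalIdeal (R ⧸ P.comap ι)) := by
    refine ⟨?_⟩
    refine le_antisymm ?_ ?_
    · rw [Ideal.under_def, ← Ideal.map_le_iff_le_comap, hmap]
    · exact le_maximalIdeal (Ideal.comap_ne_top _ (Ideal.IsPrime.ne_top inferInstance))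
  rw [← IsLocalRing.maximalIdeal_height_eq_ringKrullDim,
    ← IsLocalRing.maximalIdeal_height_eq_ringKrullDim]
  have h1 := Ideal.height_le_height_add_of_liesOver (maximalIdeal (R ⧸ P.comap ι))
    (maximalIdeal (S ⧸ P))
  have h2 : (maximalIdeal (S ⧸ P)).map (Ideal.Quotient.mk
      ((maximalIdeal (R ⧸ P.comap ι)).map (algebraMap (R ⧸ P.comap ι) (S ⧸ P)))) = ⊥ := by
    have h3 : ∀ I : Ideal (S ⧸ P), I = maximalIdeal (S ⧸ P) →
        (maximalIdeal (S ⧸ P)).map (Ideal.Quotient.mk I) = ⊥ := by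
      rintro _ rfl
      exact Ideal.map_quotient_self _
    exact h3 _ hmap
  have hnt : Nontrivial ((S ⧸ P) ⧸
      (maximalIdeal (R ⧸ P.comap ι)).map (algebraMap (R ⧸ P.comap ι) (S ⧸ P))) := by
    rw [hmap]; infer_instance
  have hmx : ((maximalIdeal (R ⧸ P.comap ι)).map
      (algebraMap (R ⧸ P.comap ι) (S ⧸ P))).IsMaximal := by
    rw [hmap]; infer_instance
  let _ := Ideal.Quotient.field ((maximalIdeal (R ⧸ P.comap ι)).map
    (algebraMap (R ⧸ P.comap ι) (S ⧸ P)))
  have h4 : (⊥ : Ideal ((S ⧸ P) ⧸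
      (maximalIdeal (R ⧸ P.comap ι)).map (algebraMap (R ⧸ P.comap ι) (S ⧸ P)))).height = 0 :=
    Ideal.height_bot
  rw [h2, h4, add_zero] at h1
  exact_mod_cast h1

/-- height plus dimension of the quotient -/
theorem height_add_le (P : Ideal R) [hP : P.IsPrime] :
    ((Order.height (⟨P, hP⟩ : PrimeSpectrum R) : ℕ∞) : WithBot ℕ∞) + ringKrullDim (R ⧸ P) ≤
      ringKrullDim R := by
  have hne : Nonempty (PrimeSpectrum R) := ⟨⟨P, hP⟩⟩
  have h1 : ringKrullDim (R ⧸ P) = (Order.coheight (⟨P, hP⟩ : PrimeSpectrum R) : ℕ∞) := by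
    rw [ringKrullDim_quotient, Order.coheight_eq_krullDim_Ici]
    rfl
  rw [h1, ringKrullDim, Order.krullDim_eq_iSup_height_add_coheight_of_nonempty, ← WithBot.coe_add,
    WithBot.coe_le_coe]
  exact le_iSup (fun a : PrimeSpectrum R => Order.height a + Order.coheight a) ⟨P, hP⟩

/-- primes `P` of a normal Noetherian domain with `dim R/P ≥ dim R - 1` have principal
localisations -/
theorem isPrincipalIdealRing_localization [IsDomain R] [IsNoetherianRing R]
    [IsIntegrallyClosed R] {d : ℕ} (hd : ringKrullDim R = (d + 2 : ℕ)) (P : Ideal R)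
    [hP : P.IsPrime] (hdim : (d : WithBot ℕ∞) < ringKrullDim (R ⧸ P)) :
    IsPrincipalIdealRing (Localization.AtPrime P) := by
  have : IsIntegrallyClosed (Localization.AtPrime P) :=
    isIntegrallyClosed_of_isLocalization _ P.primeCompl P.primeCompl_le_nonZeroDivisors
  have htfae := tfae_of_isNoetherianRing_of_isLocalRing_of_isDomain (Localization.AtPrime P)
  have hiff : IsPrincipalIdealRing (Localization.AtPrime P) ↔
      (IsIntegrallyClosed (Localization.AtPrime P) ∧ ∀ Q : Ideal (Localization.AtPrime P),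
        Q ≠ ⊥ → Q.IsPrime → Q = maximalIdeal (Localization.AtPrime P)) := htfae.out 0 3
  refine hiff.2 ⟨inferInstance, fun Q hQ hQp => ?_⟩
  by_contra hcon
  -- a chain `⊥ < Q < P`
  set Q' := Q.comap (algebraMap R (Localization.AtPrime P)) with hQ'
  have hQ'p : Q'.IsPrime := Ideal.comap_isPrime _ _
  have hbot : (⊥ : Ideal R).IsPrime := Ideal.isPrime_bot
  have h1 : (⊥ : Ideal R) < Q' := by
    rw [bot_lt_iff_ne_bot]
    intro h0
    apply hQ
    have h9 : Q'.map (algebraMap R (Localization.AtPrime P)) = Q :=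
      IsLocalization.map_under P.primeCompl (Localization.AtPrime P) Q
    rw [← h9, h0, Ideal.map_bot]
  have h2 : Q' < P := by
    have h3 : P = (maximalIdeal (Localization.AtPrime P)).comap
        (algebraMap R (Localization.AtPrime P)) :=
      (IsLocalization.AtPrime.under_maximalIdeal (Localization.AtPrime P) P).symm
    refine lt_of_le_of_ne ?_ ?_
    · rw [h3]
      exact Ideal.comap_mono (le_maximalIdeal hQp.ne_top)
    · intro h4
      apply hcon
      have h9 : Q'.map (algebraMap R (Localization.AtPrime P)) = Q :=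
        IsLocalization.map_under P.primeCompl (Localization.AtPrime P) Q
      rw [← h9, h4, Localization.AtPrime.map_eq_maximalIdeal]
  have h3 : (2 : ℕ∞) ≤ Order.height (⟨P, hP⟩ : PrimeSpectrum R) := by
    have a1 : Order.height (⟨⊥, hbot⟩ : PrimeSpectrum R) + 1 ≤
      Order.height (⟨Q', hQ'p⟩ : PrimeSpectrum R) := Order.height_add_one_le h1
    have a2 : Order.height (⟨Q', hQ'p⟩ : PrimeSpectrum R) + 1 ≤
      Order.height (⟨P, hP⟩ : PrimeSpectrum R) := Order.height_add_one_le h2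
    calc (2 : ℕ∞) = 0 + 1 + 1 := by norm_num
      _ ≤ Order.height (⟨⊥, hbot⟩ : PrimeSpectrum R) + 1 + 1 := by gcongr; exact zero_le
      _ ≤ Order.height (⟨Q', hQ'p⟩ : PrimeSpectrum R) + 1 := by gcongr
      _ ≤ _ := a2
  have h4 := height_add_le P
  rw [hd] at h4
  have h5 : ((d + 1 : ℕ) : WithBot ℕ∞) ≤ ringKrullDim (R ⧸ P) := by
    have h6 : ringKrullDim (R ⧸ P) ≠ ⊥ := fun h0 => by
      rw [h0] at hdim; exact absurd hdim (by simp)
    lift ringKrullDim (R ⧸ P) to ℕ∞ using h6 with D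
    have h7 : (d : ℕ∞) < D := by exact_mod_cast hdim
    have h8 : (d : ℕ∞) + 1 ≤ D := Order.add_one_le_of_lt h7
    exact_mod_cast h8
  have h6 : ((2 : ℕ∞) : WithBot ℕ∞) + ((d + 1 : ℕ) : WithBot ℕ∞) ≤ ((d + 2 : ℕ) : WithBot ℕ∞) :=
    (add_le_add (WithBot.coe_le_coe.2 h3) h5).trans h4
  have h7 : (((2 + (d + 1) : ℕ) : ℕ∞) : WithBot ℕ∞) ≤ (((d + 2 : ℕ) : ℕ∞) : WithBot ℕ∞) := by
    refine le_trans (le_of_eq ?_) h6
    push_cast
    rfl
  rw [WithBot.coe_le_coe, Nat.cast_le] at h7
  omega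

/-- **Block (2)**: `R` a Noetherian normal local domain of dimension `d + 2`, F-finite, of
characteristic `p`, `ι : R → S` a map to a complete Noetherian local ring with infinite coefficient
field which extends Cartier maps and dual basis identities. If the F-pure threshold of the maximal
ideal of `S` is `> d` (in the form `Excess`), then the test prime of `S` is zero. -/
theorem main [IsLocalRing R] [IsDomain R] [IsNoetherianRing R] [IsIntegrallyClosed R]
    [IsLocalRing S] [IsNoetherianRing S] [IsAdicComplete (maximalIdeal S) S] {p : ℕ}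
    [hp : Fact p.Prime] [CharP R p] (hR : FFin p R) {d : ℕ} (hd : ringKrullDim R = (d + 2 : ℕ))
    (ι : R →+* S) (hι : CartExt p ι) (hm : (maximalIdeal R).map ι = maximalIdeal S)
    {k : Type*} [Field k] [Infinite k] (s : k →+* S)
    (hs : ∀ x : S, ∃ a : k, x - s a ∈ maximalIdeal S) (h : Excess p S d) :
    testP p S = ⊥ ∧ IsDomain S ∧ IsIntegrallyClosed S := by
  have h1 := h.one_notMem
  have hprime := testP_isPrime hp.out.pos h1
  have hdim := dim_testP s hs h hprime.ne_top (compat_testP p)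
  have hle := dim_quotient_comap_le ι hm (testP p S)
  have := Ideal.comap_isPrime ι (testP p S)
  have hpid := isPrincipalIdealRing_localization hd ((testP p S).comap ι) (hdim.trans_le hle)
  obtain ⟨c, hc, hDB⟩ := exists_DB p hR ((testP p S).comap ι)
  have hbot := testP_eq_bot hp.out.two_le (hι.db c hDB) hc
  have hdom := isDomain_of_testP_eq_bot hp.out.pos h1 hbot
  exact ⟨hbot, hdom, isIntegrallyClosed_of_testP_eq_bot hbot⟩

/-- the excess hypothesis passes to extensions -/
theorem Excess.ext [IsLocalRing R] [IsLocalRing S] {p c : ℕ} (h : Excess p R c) {ι : R →+* S}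
    (hι : CartExt p ι) (hm : (maximalIdeal R).map ι ≤ maximalIdeal S) : Excess p S c := by
  intro n
  obtain ⟨e, φ, N, f, hφ, hf, hu, hN⟩ := h n
  obtain ⟨ψ, hψ, hψ'⟩ := hι.ext e φ hφ
  refine ⟨e, ψ, N, ι f, hψ, ?_, ?_, hN⟩
  · have h1 := Ideal.mem_map_of_mem ι hf
    rw [Ideal.map_pow] at h1
    exact Ideal.pow_right_mono hm N h1
  · rw [hψ']; exact hu.map ι

end H35.SFR
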